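import Pool.Agent.Helper21.CU.St

set_option autoImplicit false

/-! Project CU: module DBL (two common roots) -/

namespace Pool.Agent.Helper42.CU

open Pool.Agent.Helper21.CU

theorem hensel (p : ℕ) (hp : p.Prime) (k a : ℤ) (h3 : ¬ (p : ℤ) ∣ 3 * k)
    (ha : (p : ℤ) ∣ a ^ 3 - k) : ∃ n : ℤ, (p : ℤ) ∣ n - a ∧ (p : ℤ) ^ 2 ∣ n ^ 3 - k := by
  have hpi : Prime (p : ℤ) := Nat.prime_iff_prime_int.mp hp
  have hna : ¬ (p : ℤ) ∣ 3 * a ^ 2 := by
    intro h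
    apply h3
    have h1 : (p : ℤ) ∣ 3 * a ^ 2 * a := Dvd.dvd.mul_right h a
    have h2 : (p : ℤ) ∣ 3 * (a ^ 3 - k) := Dvd.dvd.mul_left ha 3
    have h4 := dvd_sub h1 h2
    have h5 : 3 * a ^ 2 * a - 3 * (a ^ 3 - k) = 3 * k := by ring
    rwa [h5] at h4
  have hcop : IsCoprime (p : ℤ) (3 * a ^ 2) := (Prime.coprime_iff_not_dvd hpi).mpr hna
  obtain ⟨x, y, hxy⟩ := hcop
  obtain ⟨c, hc⟩ := ha
  refine ⟨a + p * (-(c * y)), ⟨-(c * y), by ring⟩, ?_⟩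
  refine ⟨c * x + 3 * a * (c * y) ^ 2 - p * (c * y) ^ 3, ?_⟩
  have h1 : k = a ^ 3 - p * c := by linarith
  rw [h1]
  linear_combination (-(p : ℤ) * c) * hxy

theorem hDBL : StDBL := by
  intro k u v w p a b hp h3 ha hb hab hGa hGb
  have hpi : Prime (p : ℤ) := Nat.prime_iff_prime_int.mp hp
  rw [R, Finset.mem_filter, Finset.mem_range] at ha hb
  obtain ⟨ha1, ha2⟩ := ha
  obtain ⟨hb1, hb2⟩ := hb
  obtain ⟨n, hn, hn3⟩ := hensel p hp k a h3 ha2
  obtain ⟨m, hm, hm3⟩ := hensel p hp k b h3 hb2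
  -- n - m not divisible by p
  have hnm : ¬ (p : ℤ) ∣ n - m := by
    intro h
    apply hab
    have h1 : (p : ℤ) ∣ (a : ℤ) - b := by
      have h2 := dvd_add (dvd_sub h hn) hm
      have h4 : n - m - (n - (a : ℤ)) + (m - b) = (a : ℤ) - b := by ring
      rwa [h4] at h2
    have h6 : (a : ℤ) % p = (b : ℤ) % p := (Int.emod_emod_of_dvd (a : ℤ) (dvd_refl _)).symm.trans
      ((Int.emod_emod_of_dvd (a : ℤ) (dvd_refl _)).trans (Int.emod_eq_emod_iff_emod_sub_eq_zero.mpr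
        (Int.emod_eq_zero_of_dvd h1)))
    rw [Int.emod_eq_of_lt (by positivity) (by exact_mod_cast ha1),
      Int.emod_eq_of_lt (by positivity) (by exact_mod_cast hb1)] at h6
    exact_mod_cast h6
  have hcop : IsCoprime ((p : ℤ) ^ 2) (n - m) :=
    IsCoprime.pow_left ((Prime.coprime_iff_not_dvd hpi).mpr hnm)
  have hM : (p : ℤ) ^ 2 ∣ n ^ 2 + n * m + m ^ 2 := by
    apply hcop.dvd_of_dvd_mul_left
    have h1 := dvd_sub hn3 hm3
    have h2 : n ^ 3 - k - (m ^ 3 - k) = (n - m) * (n ^ 2 + n * m + m ^ 2) := by ring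
    rwa [h2] at h1
  have hGn : (p : ℤ) ∣ u + v * n + w * n ^ 2 := by
    have h1 : u + v * n + w * n ^ 2 = (u + v * a + w * (a : ℤ) ^ 2) +
        (n - a) * (v + w * (n + a)) := by ring
    rw [h1]
    exact dvd_add hGa (Dvd.dvd.mul_right hn _)
  have hGm : (p : ℤ) ∣ u + v * m + w * m ^ 2 := by
    have h1 : u + v * m + w * m ^ 2 = (u + v * b + w * (b : ℤ) ^ 2) +
        (m - b) * (v + w * (m + b)) := by ring
    rw [h1]
    exact dvd_add hGb (Dvd.dvd.mul_right hm _)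
  have hprod : (p : ℤ) ^ 2 ∣ (u + v * n + w * n ^ 2) * (u + v * m + w * m ^ 2) *
      (u + v * (-n - m) + w * (-n - m) ^ 2) := by
    rw [pow_two (p : ℤ)]
    exact Dvd.dvd.mul_right (mul_dvd_mul hGn hGm) _
  have hid : Nf k u v w = (u + v * n + w * n ^ 2) * (u + v * m + w * m ^ 2) *
      (u + v * (-n - m) + w * (-n - m) ^ 2) +
      ((n ^ 2 + n * m + m ^ 2) * (n * (v ^ 3 - 3 * u * v * w + w ^ 3 * (k + n * m * (-n - m))) -
        (2 * u ^ 2 * w - u * v ^ 2 + u * w ^ 2 * (n ^ 2 + n * m + m ^ 2) -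
          v * w ^ 2 * (n * m * (-n - m)))) -
      (n ^ 3 - k) * (v ^ 3 - 3 * u * v * w + w ^ 3 * (k + n * m * (-n - m)))) := by
    unfold Nf
    ring
  rw [hid]
  exact dvd_add hprod (dvd_sub (Dvd.dvd.mul_right hM _) (Dvd.dvd.mul_right hn3 _))

end Pool.Agent.Helper42.CU
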