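import Pool.Agent.Helper21.CU.St

set_option autoImplicit false

/-! Project CU: module DIS (roots in a residue class modulo N) -/

namespace Pool.Agent.Helper42.CU

open Pool.Agent.Helper21.CU Finset

theorem ec_add (s t : ℝ) : ec (s + t) = ec s * ec t := by
  unfold ec
  rw [← Complex.exp_add]
  congr 1
  push_cast
  ring

theorem ec_norm (t : ℝ) : ‖ec t‖ = 1 := by
  unfold ec
  have : (2 * (Real.pi : ℂ) * (t : ℂ) * Complex.I) = ((2 * Real.pi * t : ℝ) : ℂ) * Complex.I := by
    push_cast
    ring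
  rw [this, Complex.norm_exp_ofReal_mul_I]

/-- the residue condition -/
theorem res_iff (s N v v' : ℕ) (n : ℤ) (hN : 1 ≤ N) (hs : 1 ≤ s)
    (hn : (s : ℤ) ∣ N * n - 1) (hv : v < N) (hv' : v' < s) :
    (v : ℤ) + N * ((((v' : ℤ) - v) * n) % s) < s ↔ v' % N = v := by
  have hs0 : (0 : ℤ) < s := by exact_mod_cast hs
  have hN0 : (0 : ℤ) < N := by exact_mod_cast hN
  set r : ℤ := (((v' : ℤ) - v) * n) % s with hr
  have hr0 : 0 ≤ r := Int.emod_nonneg _ hs0.ne'
  have hr1 : r < s := Int.emod_lt_of_pos _ hs0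
  have hrc : (s : ℤ) ∣ ((v' : ℤ) - v) * n - r := Int.dvd_self_sub_emod
  have hv0 : (0 : ℤ) ≤ v := by positivity
  constructor
  · intro h
    have h1 : (s : ℤ) ∣ v' - (v + N * r) := by
      have h2 : (v' : ℤ) - (v + N * r) =
          N * (((v' : ℤ) - v) * n - r) - ((v' : ℤ) - v) * (N * n - 1) := by ring
      rw [h2]
      exact dvd_sub (Dvd.dvd.mul_left hrc _) (Dvd.dvd.mul_left hn _)
    have h3 : 0 ≤ (v : ℤ) + N * r := by positivity
    have h4 : (v' : ℤ) = v + N * r := by
      have h5 : (v' : ℤ) % s = (v + N * r) % s :=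
        Int.emod_eq_emod_iff_emod_sub_eq_zero.mpr (Int.emod_eq_zero_of_dvd h1)
      rwa [Int.emod_eq_of_lt (by positivity) (by exact_mod_cast hv'),
        Int.emod_eq_of_lt h3 h] at h5
    have h6 : ((v' % N : ℕ) : ℤ) = v := by
      rw [Int.natCast_mod, h4, Int.add_mul_emod_self_left]
      exact Int.emod_eq_of_lt hv0 (by exact_mod_cast hv)
    exact_mod_cast h6
  · intro h
    have h1 : v' = v + N * (v' / N) := by
      have := Nat.mod_add_div v' N
      omega
    have hw : v' / N < s := lt_of_le_of_lt (Nat.div_le_self _ _) hv'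
    set w : ℕ := v' / N with hwdef
    have h2 : (v' : ℤ) = v + N * w := by exact_mod_cast h1
    have h3 : r = w := by
      have h4 : (s : ℤ) ∣ ((v' : ℤ) - v) * n - w := by
        have h5 : ((v' : ℤ) - v) * n - w = w * (N * n - 1) := by
          rw [h2]
          ring
        rw [h5]
        exact Dvd.dvd.mul_left hn _
      have h6 : (((v' : ℤ) - v) * n) % s = (w : ℤ) % s :=
        Int.emod_eq_emod_iff_emod_sub_eq_zero.mpr (Int.emod_eq_zero_of_dvd h4)
      rw [hr, h6]
      exact Int.emod_eq_of_lt (by positivity) (by exact_mod_cast hw)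
    rw [h3, ← h2]
    exact_mod_cast hv'

theorem hDIS : StET → StDIS := by
  classical
  intro hET k s N v H n hN hNs hcop hn hv hH
  have hs : 1 ≤ s := le_trans hN hNs
  have hsR : (0 : ℝ) < s := by exact_mod_cast hs
  have hNR : (0 : ℝ) < N := by exact_mod_cast hN
  have hvR : (0 : ℝ) ≤ v := by positivity
  have hvN : (v : ℝ) ≤ N := by exact_mod_cast hv.le
  have hNsR : (N : ℝ) ≤ s := by exact_mod_cast hNs
  set ℓ : ℝ := ((s : ℝ) - v) / (s * N) with hℓ
  have hℓ0 : 0 ≤ ℓ := div_nonneg (by linarith) (by positivity)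
  have hℓ1 : ℓ ≤ 1 := by
    rw [hℓ, div_le_one (by positivity)]
    have : (1 : ℝ) ≤ N := by exact_mod_cast hN
    nlinarith
  set y : ℕ → ℝ := fun v' => (((((v' : ℤ) - v) * n : ℤ) : ℝ)) / s with hy
  have h := hET (R k s) y ℓ H hℓ0 hℓ1 hH
  -- the filter
  have hfil : (R k s).filter (fun i => Int.fract (y i) < ℓ) =
      (R k s).filter (fun v' : ℕ => v' % N = v) := by
    apply Finset.filter_congr
    intro v' hv'
    have hv's : v' < s := by
      rw [R, Finset.mem_filter, Finset.mem_range] at hv'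
      exact hv'.1
    rw [← res_iff s N v v' n hN hs hn hv hv's]
    rw [hy]
    simp only []
    rw [Int.fract_div_intCast_eq_div_intCast_mod, hℓ, div_lt_div_iff₀ hsR (by positivity)]
    set r : ℤ := (((v' : ℤ) - v) * n) % s with hr
    constructor
    · intro h1
      have h2 : (r : ℝ) * N < s - v := by
        by_contra hcon
        push Not at hcon
        nlinarith
      have h3 : (v : ℝ) + N * r < s := by linarith
      exact_mod_cast h3
    · intro h1
      have h3 : (v : ℝ) + N * r < s := by exact_mod_cast h1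
      have h2 : (r : ℝ) * N < s - v := by linarith
      nlinarith
  rw [hfil] at h
  -- the exponential sums
  have hexp : ∀ m ∈ Icc 1 H, (1 : ℝ) / m * ‖∑ i ∈ R k s, ec ((m : ℕ) * y i)‖ =
      (1 : ℝ) / m * ‖W k s (m * n)‖ := by
    intro m _
    congr 1
    have h1 : ∑ i ∈ R k s, ec ((m : ℕ) * y i) = ec (-((m : ℝ) * n * v / s)) * W k s (m * n) := by
      unfold W
      rw [Finset.mul_sum]
      refine Finset.sum_congr rfl fun i _ => ?_
      rw [← ec_add]
      congr 1
      rw [hy]
      push_cast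
      ring
    rw [h1, norm_mul, ec_norm, one_mul]
  rw [Finset.sum_congr rfl hexp] at h
  -- ℓ versus 1 / N
  have hcard : (0 : ℝ) ≤ ((R k s).card : ℝ) := by positivity
  have hdiff : |ℓ * ((R k s).card : ℝ) - ((R k s).card : ℝ) / N| ≤ ((R k s).card : ℝ) / s := by
    have h1 : ℓ * ((R k s).card : ℝ) - ((R k s).card : ℝ) / N =
        -(((R k s).card : ℝ) * (v / (s * N))) := by
      rw [hℓ]
      field_simp
      ring
    rw [h1, abs_neg, abs_of_nonneg (by positivity)]
    have h2 : (v : ℝ) / (s * N) ≤ 1 / s := by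
      rw [div_le_div_iff₀ (by positivity) hsR]
      nlinarith
    calc ((R k s).card : ℝ) * (v / (s * N)) ≤ ((R k s).card : ℝ) * (1 / s) :=
          mul_le_mul_of_nonneg_left h2 hcard
      _ = ((R k s).card : ℝ) / s := by ring
  have htri : |(((R k s).filter (fun v' : ℕ => v' % N = v)).card : ℝ) -
      ((R k s).card : ℝ) / N| ≤
      |(((R k s).filter (fun v' : ℕ => v' % N = v)).card : ℝ) - ℓ * ((R k s).card : ℝ)| +
      |ℓ * ((R k s).card : ℝ) - ((R k s).card : ℝ) / N| := by
    have h1 : (((R k s).filter (fun v' : ℕ => v' % N = v)).card : ℝ) -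
      ((R k s).card : ℝ) / N =
      ((((R k s).filter (fun v' : ℕ => v' % N = v)).card : ℝ) - ℓ * ((R k s).card : ℝ)) +
      (ℓ * ((R k s).card : ℝ) - ((R k s).card : ℝ) / N) := by ring
    rw [h1]
    exact abs_add_le _ _
  calc |(((R k s).filter (fun v' : ℕ => v' % N = v)).card : ℝ) - ((R k s).card : ℝ) / N|
      ≤ _ := htri
    _ ≤ (3 * ((R k s).card : ℝ) / √(H : ℝ) + ∑ h ∈ Icc 1 H, (1 : ℝ) / h * ‖W k s (h * n)‖) +
        ((R k s).card : ℝ) / s := add_le_add h hdiff
    _ = _ := by ring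

end Pool.Agent.Helper42.CU
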